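import Mathlib
import Pool.Agent.Helper2CR.Blk

/-!
If the free product `G * H` has a finite complete rewriting system all of whose letters represent
elements `g η g'` with `g`, `g'` in `G` and `η` in `H`, then `G` has a finite complete rewriting
system.
-/

set_option autoImplicit false

namespace Pool.Agent.Results.MP_56d4a1_al.OneSyllable

open Pool.Agent.Helper2CR

theorem result (G H A : Type) [Group G] [Group H] (R : Set (List A × List A))
    (π : A → Monoid.Coprod G H) (h : IsCRS R π)
    (hl : ∀ a, ∃ (g : G) (η : H) (g' : G),
      π a = Monoid.Coprod.inl g * Monoid.Coprod.inr η * Monoid.Coprod.inl g') :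
    HasCRS G := free_factor_crs h hl

end Pool.Agent.Results.MP_56d4a1_al.OneSyllable
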